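import Pool.Agent.Y168.D.Lin

/-!
# Short independent vectors orthogonal to a balanced vector
-/

set_option autoImplicit false

namespace Pool.Agent.Y168.D

open Pool.Agent.Y716.Q Pool.Agent.Y716.C Pool.Agent.Y716.D

theorem short_basis (ι : Type*) [Fintype ι] : ShortBasis ι := by
  classical
  intro B a x ha hB hx hb
  obtain ⟨i₀, hi₀⟩ : ∃ i, x i ≠ 0 := by
    obtain ⟨r, hr⟩ := hx.2
    refine ⟨r, fun h => ?_⟩
    rw [h] at hr
    simp at hr
    linarith
  have hk : 0 < Fintype.card ι := Fintype.card_pos_iff.2 ⟨i₀⟩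
  have hi₀' : (x i₀ : ℚ) ≠ 0 := by exact_mod_cast hi₀
  -- the linear form
  obtain ⟨f, hf⟩ : ∃ f : (ι → ℚ) →ₗ[ℚ] ℚ, ∀ v, f v = ∑ i, v i * x i := by
    refine ⟨∑ i, (x i : ℚ) • LinearMap.proj i, fun v => ?_⟩
    rw [LinearMap.sum_apply]
    refine Finset.sum_congr rfl fun i _ => ?_
    rw [LinearMap.smul_apply, LinearMap.proj_apply, smul_eq_mul, mul_comm]
  have hfs : LinearMap.range f = ⊤ := by
    rw [LinearMap.range_eq_top]
    intro c
    refine ⟨fun i => if i = i₀ then c / x i₀ else 0, ?_⟩
    rw [hf]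
    simp only [ite_mul, zero_mul, Finset.sum_ite_eq', Finset.mem_univ, if_true]
    field_simp
  have hdim : Module.finrank ℚ (LinearMap.ker f) = Fintype.card ι - 1 := by
    have h1 := f.finrank_range_add_finrank_ker
    rw [hfs, finrank_top, Module.finrank_self, Module.finrank_fintype_fun_eq_card] at h1
    omega
  -- the short vectors
  obtain ⟨S, hS⟩ : ∃ S : Set (ι → ℤ), S = {L | (∀ i, |(L i : ℝ)| ≤ 15 * Fintype.card ι * a) ∧
    ∑ i, L i * x i = 0} := ⟨_, rfl⟩
  have hspan : Submodule.span ℚ (cst ι '' S) = LinearMap.ker f := by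
    refine le_antisymm (Submodule.span_le.2 ?_) ?_
    · rintro _ ⟨L, hL, rfl⟩
      rw [SetLike.mem_coe, LinearMap.mem_ker, hf]
      rw [hS] at hL
      have := hL.2
      have h2 : ∑ i, (L i : ℚ) * x i = 0 := by exact_mod_cast this
      exact h2
    · intro v hv
      rw [LinearMap.mem_ker, hf] at hv
      obtain ⟨b, hb2⟩ := IsLocalization.exist_integer_multiples_of_finite (nonZeroDivisors ℤ) v
      choose l hl using hb2
      have hb0 : ((b : ℤ) : ℚ) ≠ 0 := by
        have := nonZeroDivisors.ne_zero b.2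
        exact_mod_cast this
      have hl2 : ∀ i, (l i : ℚ) = b * v i := by
        intro i
        have := hl i
        rw [zsmul_eq_mul] at this
        exact this
      have hlx : ∑ i, l i * x i = 0 := by
        have h1 : ∑ i, (l i : ℚ) * x i = 0 := by
          have h2 : ∑ i, (l i : ℚ) * x i = b * ∑ i, v i * x i := by
            rw [Finset.mul_sum]
            exact Finset.sum_congr rfl fun i _ => by rw [hl2]; ring
          rw [h2, hv, mul_zero]
        exact_mod_cast h1
      obtain ⟨N, hN⟩ : ∃ N : ℕ, ∀ i, |(l i : ℝ)| ≤ 2 ^ N := by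
        obtain ⟨m, hm⟩ : ∃ m : ℕ, ∀ i, (l i).natAbs ≤ m :=
          ⟨∑ i, (l i).natAbs, fun i => Finset.single_le_sum (f := fun i => (l i).natAbs)
            (fun _ _ => Nat.zero_le _) (Finset.mem_univ i)⟩
        refine ⟨m, fun i => ?_⟩
        have h1 : (((l i).natAbs : ℕ) : ℝ) ≤ 2 ^ m := by
          have : (l i).natAbs ≤ 2 ^ m := (hm i).trans Nat.lt_two_pow_self.le
          exact_mod_cast this
        rw [Nat.cast_natAbs] at h1
        push_cast at h1
        exact h1
      have hlN : ∀ i, |(l i : ℝ)| ≤ 2 ^ N * a + 14 * Fintype.card ι * a := by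
        intro i
        have h1 := hN i
        have h2 : (2 : ℝ) ^ N ≤ 2 ^ N * a := le_mul_of_one_le_right (by positivity) ha
        have h3 : 0 ≤ 14 * (Fintype.card ι : ℝ) * a := by positivity
        linarith
      obtain ⟨L, hL1, hL2, hL3⟩ := hb.generation hx hB ha N l hlN hlx
      have hv2 : v = ∑ j ∈ Finset.range (N + 1), ((b : ℚ)⁻¹ * 2 ^ j) • cst ι (L j) := by
        funext i
        rw [Finset.sum_apply]
        have h1 : (l i : ℚ) = ∑ j ∈ Finset.range (N + 1), 2 ^ j * (L j i : ℚ) := by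
          rw [hL3 i]
          push_cast
          rfl
        have h2 : v i = (b : ℚ)⁻¹ * l i := by
          rw [hl2]
          field_simp
        rw [h2, h1, Finset.mul_sum]
        refine Finset.sum_congr rfl fun j _ => ?_
        rw [Pi.smul_apply, smul_eq_mul, mul_assoc]
        rfl
      rw [hv2]
      refine Submodule.sum_mem _ fun j _ => Submodule.smul_mem _ _ (Submodule.subset_span ?_)
      refine ⟨L j, ?_, rfl⟩
      rw [hS]
      exact ⟨hL1 j, hL2 j⟩
  obtain ⟨b, hb1, hb2, hb3⟩ := exists_linearIndependent ℚ (cst ι '' S)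
  have hbfin : b.Finite := hb3.setFinite
  have := hbfin.fintype
  have hcard : Fintype.card b = Fintype.card ι - 1 := by
    rw [← hdim, ← hspan, ← hb2]
    have h1 := finrank_span_eq_card hb3
    rw [Subtype.range_coe] at h1
    exact h1.symm
  have e : Fin (Fintype.card ι - 1) ≃ b := (Fintype.equivFinOfCardEq hcard).symm
  have hch : ∀ j, ∃ L : ι → ℤ, L ∈ S ∧ cst ι L = (e j : ι → ℚ) := fun j => hb1 (e j).2
  choose L hL1 hL2 using hch
  refine ⟨L, li_of_cast ?_, fun j => ?_, fun j => ?_⟩
  · have h1 := hb3.comp e e.injective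
    have h2 : (fun j => cst ι (L j)) = (fun v : b => (v : ι → ℚ)) ∘ e := funext hL2
    rw [h2]
    exact h1
  · have := hL1 j
    rw [hS] at this
    exact this.1
  · have := hL1 j
    rw [hS] at this
    exact this.2

end Pool.Agent.Y168.D
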