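import Pool.Agent.Y168.D.Lin

/-!
# Few integral vectors close to a line
-/

set_option autoImplicit false

namespace Pool.Agent.Y168.D

open Pool.Agent.Y716.Q Pool.Agent.Y716.C Pool.Agent.Y716.D

theorem short_classes (ι : Type*) [Fintype ι] : ShortClasses ι := by
  classical
  intro x L R δ hx hL hLR hLx hR hδ
  obtain ⟨m, hm⟩ : ∃ m : ℤ, m = ⌊(Fintype.card ι : ℝ) * R * δ⌋ := ⟨_, rfl⟩
  have hm0 : 0 ≤ m := by
    rw [hm]
    exact Int.floor_nonneg.2 (by positivity)
  obtain ⟨g, hg⟩ : ∃ g : (Fin (Fintype.card ι - 1) → ℤ) → ι → ℤ, ∀ v,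
      (∃ z : ι → ℤ, ∀ j, ∑ i, L j i * z i = v j) → ∀ j, ∑ i, L j i * g v i = v j := by
    refine ⟨fun v => if h : ∃ z : ι → ℤ, ∀ j, ∑ i, L j i * z i = v j then h.choose else 0,
      fun v h => ?_⟩
    beta_reduce
    rw [dif_pos h]
    exact h.choose_spec
  refine ⟨(Fintype.piFinset fun _ : Fin (Fintype.card ι - 1) => Finset.Icc (-m) m).image g,
    ?_, ?_⟩
  · refine (Nat.cast_le.2 Finset.card_image_le).trans ?_
    rw [Fintype.card_piFinset, Finset.prod_const, Finset.card_univ, Fintype.card_fin, Int.card_Icc]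
    push_cast
    refine pow_le_pow_left₀ (by positivity) ?_ _
    have h1 : (((m + 1 - -m).toNat : ℕ) : ℤ) = 2 * m + 1 := by
      rw [Int.toNat_of_nonneg (by omega)]
      ring
    have h2 : (((m + 1 - -m).toNat : ℕ) : ℝ) = 2 * (m : ℝ) + 1 := by exact_mod_cast h1
    rw [h2]
    have h3 : (m : ℝ) ≤ Fintype.card ι * R * δ := by
      rw [hm]
      exact Int.floor_le _
    linarith
  · rintro z ⟨γ, hγ⟩
    obtain ⟨v, hv⟩ : ∃ v : Fin (Fintype.card ι - 1) → ℤ, v = fun j => ∑ i, L j i * z i := ⟨_, rfl⟩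
    have hgv := hg v ⟨z, fun j => by rw [hv]⟩
    refine ⟨g v, Finset.mem_image_of_mem _ ?_, ?_⟩
    · rw [Fintype.mem_piFinset]
      intro j
      rw [Finset.mem_Icc, ← abs_le, hm, Int.le_floor]
      have h1 : ((v j : ℤ) : ℝ) = ∑ i, (L j i : ℝ) * ((z i : ℝ) - γ * (x i : ℝ)) := by
        have h2 : ∑ i, (L j i : ℝ) * (x i : ℝ) = 0 := by
          have := hLx j
          exact_mod_cast this
        have h3 : ∑ i, (L j i : ℝ) * ((z i : ℝ) - γ * (x i : ℝ)) =
            ∑ i, (L j i : ℝ) * (z i : ℝ) - γ * ∑ i, (L j i : ℝ) * (x i : ℝ) := by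
          rw [Finset.mul_sum, ← Finset.sum_sub_distrib]
          exact Finset.sum_congr rfl fun i _ => by ring
        rw [h3, h2, hv]
        push_cast
        ring
      push_cast
      rw [h1]
      refine (Finset.abs_sum_le_sum_abs _ _).trans ?_
      have h4 : ∀ i ∈ Finset.univ, |(L j i : ℝ) * ((z i : ℝ) - γ * (x i : ℝ))| ≤ R * δ := by
        intro i _
        rw [abs_mul]
        exact mul_le_mul (hLR j i) (hγ i) (abs_nonneg _) hR
      refine (Finset.sum_le_card_nsmul _ _ _ h4).trans (le_of_eq ?_)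
      rw [Finset.card_univ, nsmul_eq_mul, mul_assoc]
    · obtain ⟨w, hw⟩ := hx.bezout
      have horth : ∀ j, ∑ i, (L j i : ℚ) * ((z i : ℚ) - (g v i : ℚ)) = 0 := by
        intro j
        have h1 : ∑ i, L j i * (z i - g v i) = 0 := by
          have h2 : ∑ i, L j i * (z i - g v i) = ∑ i, L j i * z i - ∑ i, L j i * g v i := by
            rw [← Finset.sum_sub_distrib]
            exact Finset.sum_congr rfl fun i _ => by ring
          rw [h2, hgv j, hv]
          ring
        exact_mod_cast h1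
      obtain ⟨c, hc⟩ := orth hL (prim_ne hx) hLx horth
      have hmn : ∀ i j, mn x (fun i => z i - g v i) i j = 0 := by
        intro i j
        have h1 := hc i
        have h2 := hc j
        have h3 : (x i : ℚ) * ((z j : ℚ) - (g v j : ℚ)) - (x j : ℚ) * ((z i : ℚ) - (g v i : ℚ)) = 0 := by
          rw [h1, h2]
          ring
        have h4 : x i * (z j - g v j) - x j * (z i - g v i) = 0 := by exact_mod_cast h3
        exact h4
      refine ⟨∑ i, w i * (z i - g v i), fun i => ?_⟩
      have h5 := eq_smul_of_minors hw hmn i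
      linear_combination h5

end Pool.Agent.Y168.D
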