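import Pool.Agent.Y168.D.Lin

/-!
# Linear algebra of exceptional pairs
-/

set_option autoImplicit false

namespace Pool.Agent.Y168.D

open Pool.Agent.Y716.Q Pool.Agent.Y716.C Pool.Agent.Y716.D

theorem relation (ι : Type*) [Fintype ι] : Relation ι := by
  classical
  intro x y L M z c hxy hL hLy hM hz
  obtain ⟨⟨i₀, hi₀⟩, i₁, hi₁⟩ := ne_zero_of_mn hxy
  -- symmetry
  have hsym : ∀ j j', dot (L j') (z j) + c j * dot (L j') x =
      dot (L j) (z j') + c j' * dot (L j) x := by
    intro j j'
    have h1 : ∀ j j', dot (L j') (z j) + c j * dot (L j') x =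
        ∑ i, ∑ i', L j' i * L j i' * M i i' := by
      intro j j'
      have h2 : dot (L j') (z j) + c j * dot (L j') x = ∑ i, L j' i * (z j i + c j * x i) := by
        rw [dot, dot, Finset.mul_sum, ← Finset.sum_add_distrib]
        exact Finset.sum_congr rfl fun i _ => by ring
      rw [h2]
      refine Finset.sum_congr rfl fun i _ => ?_
      rw [← hz j i, dot, Finset.mul_sum]
      exact Finset.sum_congr rfl fun i' _ => by ring
    rw [h1 j j', h1 j' j, Finset.sum_comm]
    refine Finset.sum_congr rfl fun i _ => Finset.sum_congr rfl fun i' _ => ?_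
    rw [hM i' i]
    ring
  refine ⟨fun j₁ j₂ j₃ => ?_, fun hmn => ?_⟩
  · have h12 := hsym j₁ j₂
    have h13 := hsym j₁ j₃
    have h23 := hsym j₂ j₃
    unfold rel3 om
    linear_combination dot (L j₃) x * h12 - dot (L j₂) x * h13 + dot (L j₁) x * h23
  · have hi₀' : (x i₀ : ℚ) ≠ 0 := by exact_mod_cast hi₀
    have hi₁' : (y i₁ : ℚ) ≠ 0 := by exact_mod_cast hi₁
    obtain ⟨κ, hκ⟩ : ∃ κ : Fin (Fintype.card ι - 1) → ℚ,
        ∀ j, κ j = (z j i₀ : ℚ) / x i₀ + c j := ⟨_, fun _ => rfl⟩
    have hML : ∀ j i, ∑ i', (L j i' : ℚ) * (M i i' : ℚ) = κ j * x i := by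
      intro j i
      have h1 : ∑ i', (L j i' : ℚ) * (M i i' : ℚ) = (z j i : ℚ) + c j * x i := by
        have := hz j i
        rw [dot] at this
        exact_mod_cast this
      have h2 : (x i₀ : ℚ) * z j i - (x i : ℚ) * z j i₀ = 0 := by
        have := hmn j i₀ i
        rw [mn] at this
        exact_mod_cast this
      rw [h1, hκ]
      field_simp
      linear_combination h2
    have hκs : ∀ j j', κ j * (dot (L j') x : ℚ) = κ j' * (dot (L j) x : ℚ) := by
      intro j j'
      have h1 : ∀ j j', κ j * (dot (L j') x : ℚ) =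
          ∑ i, ∑ i', (L j' i : ℚ) * L j i' * M i i' := by
        intro j j'
        have h2 : κ j * (dot (L j') x : ℚ) = ∑ i, (L j' i : ℚ) * (κ j * x i) := by
          rw [dot]
          push_cast
          rw [Finset.mul_sum]
          exact Finset.sum_congr rfl fun i _ => by ring
        rw [h2]
        refine Finset.sum_congr rfl fun i _ => ?_
        rw [← hML j i, Finset.mul_sum]
        exact Finset.sum_congr rfl fun i' _ => by ring
      rw [h1 j j', h1 j' j, Finset.sum_comm]
      refine Finset.sum_congr rfl fun i _ => Finset.sum_congr rfl fun i' _ => ?_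
      rw [hM i' i]
      ring
    obtain ⟨j₀, hj₀⟩ : ∃ j, dot (L j) x ≠ 0 := by
      by_contra hcon
      push Not at hcon
      have h1 : ∀ j, ∑ i, (L j i : ℚ) * (x i : ℚ) = 0 := by
        intro j
        have := hcon j
        rw [dot] at this
        exact_mod_cast this
      obtain ⟨t, ht⟩ := orth hL ⟨i₁, hi₁⟩ hLy h1
      obtain ⟨i, j, hij⟩ := hxy
      refine hij ?_
      have h2 : (x i : ℚ) * y j - (x j : ℚ) * y i = 0 := by
        rw [ht i, ht j]
        ring
      rw [mn]
      exact_mod_cast h2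
    have hj₀' : (dot (L j₀) x : ℚ) ≠ 0 := by exact_mod_cast hj₀
    obtain ⟨K, hK⟩ : ∃ K : ℚ, K = κ j₀ / (dot (L j₀) x : ℚ) := ⟨_, rfl⟩
    have hκK : ∀ j, κ j = K * (dot (L j) x : ℚ) := by
      intro j
      rw [hK]
      field_simp
      exact hκs j j₀
    have hN : ∀ i, ∃ d : ℚ, ∀ i', (M i i' : ℚ) - K * x i * x i' = d * y i' := by
      intro i
      refine orth (w := fun i' => (M i i' : ℚ) - K * x i * x i') hL ⟨i₁, hi₁⟩ hLy fun j => ?_
      have h1 : ∑ i', (L j i' : ℚ) * ((M i i' : ℚ) - K * x i * x i') =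
          ∑ i', (L j i' : ℚ) * (M i i' : ℚ) - K * x i * ∑ i', (L j i' : ℚ) * x i' := by
        rw [Finset.mul_sum, ← Finset.sum_sub_distrib]
        exact Finset.sum_congr rfl fun i' _ => by ring
      have h2 : ∑ i', (L j i' : ℚ) * x i' = (dot (L j) x : ℚ) := by
        rw [dot]
        push_cast
        rfl
      rw [h1, hML, h2, hκK]
      ring
    choose d hd using hN
    have hd2 : ∀ i, d i = d i₁ / y i₁ * y i := by
      intro i
      have h1 := hd i i₁
      have h2 := hd i₁ i
      rw [hM i₁ i] at h2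
      have h3 : d i * y i₁ = d i₁ * y i := by
        rw [← h1, ← h2]
        ring
      field_simp
      exact h3
    refine ⟨(K : ℝ), ((d i₁ / y i₁ : ℚ) : ℝ), fun i j => ?_⟩
    have h4 : (M i j : ℚ) = K * (x i * x j) + d i₁ / y i₁ * (y i * y j) := by
      have h5 := hd i j
      rw [hd2 i] at h5
      linear_combination h5
    exact_mod_cast congrArg (fun q : ℚ => (q : ℝ)) h4

end Pool.Agent.Y168.D
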