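import Pool.Agent.Y168.D.Lin

/-!
# Few triples satisfy a nontrivial relation
-/

set_option autoImplicit false

namespace Pool.Agent.Y168.D

open Pool.Agent.Y716.Q Pool.Agent.Y716.C Pool.Agent.Y716.D

variable {ι : Type*} [Fintype ι]

theorem dot_add (l z z' : ι → ℤ) : dot l (fun i => z i + z' i) = dot l z + dot l z' := by
  rw [dot, dot, dot, ← Finset.sum_add_distrib]
  exact Finset.sum_congr rfl fun i _ => by ring

theorem dot_smul (l z : ι → ℤ) (c : ℤ) : dot l (fun i => c * z i) = c * dot l z := by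
  rw [dot, dot, Finset.mul_sum]
  exact Finset.sum_congr rfl fun i _ => by ring

/-- lattice points of a box on a hyperplane -/
theorem hyper [DecidableEq ι] (B : Finset ℤ) {W : ι → ℤ} (hW : ∃ i, W i ≠ 0) (c : ℤ) :
    ((Fintype.piFinset fun _ : ι => B).filter fun l => dot l W = c).card ≤
      B.card ^ (Fintype.card ι - 1) := by
  classical
  obtain ⟨i₀, hi₀⟩ := hW
  have h1 : ((Fintype.piFinset fun _ : ι => B).filter fun l => dot l W = c).card ≤
      (Fintype.piFinset fun _ : {i // i ≠ i₀} => B).card := by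
    refine Finset.card_le_card_of_injOn (fun l i => l i.1) ?_ ?_
    · intro l hl
      rw [Finset.mem_coe, Finset.mem_filter, Fintype.mem_piFinset] at hl
      rw [Finset.mem_coe, Fintype.mem_piFinset]
      exact fun i => hl.1 i.1
    · intro l hl l' hl' hll'
      rw [Finset.mem_coe, Finset.mem_filter] at hl hl'
      have h2 : ∀ i, i ≠ i₀ → l i = l' i := fun i hi => congrFun hll' ⟨i, hi⟩
      have h3 : dot l W = dot l' W := by rw [hl.2, hl'.2]
      have h4 : l i₀ * W i₀ = l' i₀ * W i₀ := by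
        rw [dot, dot, ← Finset.add_sum_erase _ _ (Finset.mem_univ i₀),
          ← Finset.add_sum_erase _ (fun i => l' i * W i) (Finset.mem_univ i₀)] at h3
        have h5 : ∑ i ∈ Finset.univ.erase i₀, l i * W i =
            ∑ i ∈ Finset.univ.erase i₀, l' i * W i :=
          Finset.sum_congr rfl fun i hi => by rw [h2 i (Finset.ne_of_mem_erase hi)]
        rw [h5] at h3
        exact add_right_cancel h3
      funext i
      by_cases hi : i = i₀
      · rw [hi]
        exact mul_right_cancel₀ hi₀ h4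
      · exact h2 i hi
  refine h1.trans (le_of_eq ?_)
  rw [Fintype.card_piFinset, Finset.prod_const, Finset.card_univ]
  congr 1
  rw [Fintype.card_subtype_compl, Fintype.card_subtype_eq]

/-- the case of a nontrivial first vector -/
theorem case1 [DecidableEq ι] (B : Finset ℤ) {x z₁ z₂ z₃ : ι → ℤ} (h : ∃ i j, mn x z₁ i j ≠ 0)
    (U : Finset ((ι → ℤ) × (ι → ℤ) × (ι → ℤ)))
    (hU : ∀ p ∈ U, p.1 ∈ (Fintype.piFinset fun _ : ι => B) ∧
      p.2.1 ∈ (Fintype.piFinset fun _ : ι => B) ∧ p.2.2 ∈ (Fintype.piFinset fun _ : ι => B) ∧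
      rel3 x z₁ z₂ z₃ p.1 p.2.1 p.2.2 = 0) :
    U.card ≤ 2 * B.card ^ (3 * Fintype.card ι - 1) := by
  classical
  obtain ⟨⟨i₀, hi₀⟩, -⟩ := ne_zero_of_mn h
  obtain ⟨a, b, hab⟩ := h
  have hk : 0 < Fintype.card ι := Fintype.card_pos_iff.2 ⟨i₀⟩
  obtain ⟨X, hX⟩ : ∃ X : Finset (ι → ℤ), X = Fintype.piFinset fun _ : ι => B := ⟨_, rfl⟩
  rw [← hX] at hU
  have hXc : X.card = B.card ^ Fintype.card ι := by
    rw [hX, Fintype.card_piFinset, Finset.prod_const, Finset.card_univ]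
  obtain ⟨Wf, hWf⟩ : ∃ Wf : (ι → ℤ) → (ι → ℤ) → ι → ℤ, ∀ l₁ l₃ i,
      Wf l₁ l₃ i = dot l₃ x * z₁ i - dot l₁ x * z₃ i + (dot l₁ z₃ - dot l₃ z₁) * x i :=
    ⟨_, fun _ _ _ => rfl⟩
  have hrel : ∀ l₁ l₂ l₃, rel3 x z₁ z₂ z₃ l₁ l₂ l₃ =
      dot l₂ (Wf l₁ l₃) + (dot l₃ z₂ * dot l₁ x - dot l₃ x * dot l₁ z₂) := by
    intro l₁ l₂ l₃
    have h1 : dot l₂ (Wf l₁ l₃) = dot l₃ x * dot l₂ z₁ - dot l₁ x * dot l₂ z₃ +
        (dot l₁ z₃ - dot l₃ z₁) * dot l₂ x := by
      have h2 : Wf l₁ l₃ = fun i => (dot l₃ x * z₁ i + (-dot l₁ x) * z₃ i) +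
          (dot l₁ z₃ - dot l₃ z₁) * x i := by
        funext i
        rw [hWf]
        ring
      rw [h2, dot_add l₂ (fun i => dot l₃ x * z₁ i + (-dot l₁ x) * z₃ i),
        dot_add l₂ (fun i => dot l₃ x * z₁ i), dot_smul, dot_smul, dot_smul]
      ring
    rw [h1]
    unfold rel3 om
    ring
  have hprod : B.card ^ (Fintype.card ι - 1) * (X ×ˢ X).card =
      B.card ^ (3 * Fintype.card ι - 1) := by
    rw [Finset.card_product, hXc, ← pow_add, ← pow_add]
    congr 1
    omega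
  -- the two parts
  have hU1 : (U.filter fun p => ∃ i, Wf p.1 p.2.2 i ≠ 0).card ≤
      B.card ^ (3 * Fintype.card ι - 1) := by
    rw [← hprod]
    refine Finset.card_le_mul_card_image_of_maps_to (f := fun p => (p.1, p.2.2))
      (fun p hp => ?_) _ fun q hq => ?_
    · have := hU p (Finset.mem_filter.1 hp).1
      exact Finset.mem_product.2 ⟨this.1, this.2.2.1⟩
    · by_cases hW : ∃ i, Wf q.1 q.2 i ≠ 0
      · refine le_trans ?_ (hyper B hW
          (-(dot q.2 z₂ * dot q.1 x - dot q.2 x * dot q.1 z₂)))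
        refine Finset.card_le_card_of_injOn (fun p => p.2.1) ?_ ?_
        · intro p hp
          rw [Finset.mem_coe, Finset.mem_filter, Finset.mem_filter] at hp
          obtain ⟨⟨hpU, -⟩, hpq⟩ := hp
          obtain ⟨h1, h2, h3, h4⟩ := hU p hpU
          rw [Finset.mem_coe, Finset.mem_filter, ← hX]
          refine ⟨h2, ?_⟩
          rw [hrel, show p.1 = q.1 by rw [← hpq],
            show p.2.2 = q.2 by rw [← hpq]] at h4
          linarith
        · intro p hp p' hp' hpp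
          rw [Finset.mem_coe, Finset.mem_filter] at hp hp'
          have h1 : (p.1, p.2.2) = (p'.1, p'.2.2) := hp.2.trans hp'.2.symm
          have h2 := congrArg Prod.fst h1
          have h3 := congrArg Prod.snd h1
          exact Prod.ext h2 (Prod.ext hpp h3)
      · refine le_trans (le_of_eq ?_) (Nat.zero_le _)
        rw [Finset.card_eq_zero, Finset.filter_eq_empty_iff]
        intro p hp hpq
        have h1 := (Finset.mem_filter.1 hp).2
        rw [show p.1 = q.1 by rw [← hpq],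
          show p.2.2 = q.2 by rw [← hpq]] at h1
        exact hW h1
  have hU2 : (U.filter fun p => ¬ ∃ i, Wf p.1 p.2.2 i ≠ 0).card ≤
      B.card ^ (3 * Fintype.card ι - 1) := by
    rw [← hprod]
    refine Finset.card_le_mul_card_image_of_maps_to (f := fun p => (p.1, p.2.1))
      (fun p hp => ?_) _ fun q hq => ?_
    · have := hU p (Finset.mem_filter.1 hp).1
      exact Finset.mem_product.2 ⟨this.1, this.2.1⟩
    · refine le_trans ?_ (hyper B ⟨i₀, hi₀⟩ (dot q.1 x * mn x z₃ a b / mn x z₁ a b))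
      refine Finset.card_le_card_of_injOn (fun p => p.2.2) ?_ ?_
      · intro p hp
        rw [Finset.mem_coe, Finset.mem_filter, Finset.mem_filter] at hp
        obtain ⟨⟨hpU, hpW⟩, hpq⟩ := hp
        obtain ⟨h1, h2, h3, h4⟩ := hU p hpU
        rw [Finset.mem_coe, Finset.mem_filter, ← hX]
        refine ⟨h3, ?_⟩
        push Not at hpW
        have h5 := hpW a
        have h6 := hpW b
        rw [hWf] at h5 h6
        have h7 : dot p.2.2 x * mn x z₁ a b = dot q.1 x * mn x z₃ a b := by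
          rw [show q.1 = p.1 by rw [← hpq]]
          unfold mn
          linear_combination x a * h6 - x b * h5
        rw [← h7, Int.mul_ediv_cancel _ hab]
      · intro p hp p' hp' hpp
        rw [Finset.mem_coe, Finset.mem_filter] at hp hp'
        have h1 : (p.1, p.2.1) = (p'.1, p'.2.1) := hp.2.trans hp'.2.symm
        have h2 := congrArg Prod.fst h1
        have h3 := congrArg Prod.snd h1
        exact Prod.ext h2 (Prod.ext h3 hpp)
  have hsplit := Finset.card_filter_add_card_filter_not (s := U)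
    (fun p => ∃ i, Wf p.1 p.2.2 i ≠ 0)
  omega

theorem rel3_cyc (x z₁ z₂ z₃ l₁ l₂ l₃ : ι → ℤ) :
    rel3 x z₂ z₃ z₁ l₂ l₃ l₁ = rel3 x z₁ z₂ z₃ l₁ l₂ l₃ := by
  unfold rel3
  ring

theorem triple_count (ι : Type*) [Fintype ι] : TripleCount ι := by
  classical
  intro x z₁ z₂ z₃ R hR h U hU
  obtain ⟨B, hB⟩ : ∃ B : Finset ℤ, B = Finset.Icc (-⌊R⌋) ⌊R⌋ := ⟨_, rfl⟩
  have hm0 : 0 ≤ ⌊R⌋ := Int.floor_nonneg.2 hR
  have hBc : (B.card : ℝ) ≤ 2 * R + 1 := by
    rw [hB, Int.card_Icc]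
    have h1 : (((⌊R⌋ + 1 - -⌊R⌋).toNat : ℕ) : ℤ) = 2 * ⌊R⌋ + 1 := by
      rw [Int.toNat_of_nonneg (by omega)]
      ring
    have h2 : (((⌊R⌋ + 1 - -⌊R⌋).toNat : ℕ) : ℝ) = 2 * (⌊R⌋ : ℝ) + 1 := by exact_mod_cast h1
    rw [h2]
    have := Int.floor_le R
    linarith
  have hmem : ∀ l : ι → ℤ, (∀ i, |(l i : ℝ)| ≤ R) → l ∈ Fintype.piFinset fun _ : ι => B := by
    intro l hl
    rw [Fintype.mem_piFinset]
    intro i
    rw [hB, Finset.mem_Icc, ← abs_le, Int.le_floor]
    push_cast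
    exact hl i
  have hnat : U.card ≤ 2 * B.card ^ (3 * Fintype.card ι - 1) := by
    rcases h with h | h | h
    · refine case1 B (z₂ := z₂) (z₃ := z₃) h U fun p hp => ?_
      obtain ⟨h1, h2, h3, h4⟩ := hU p hp
      exact ⟨hmem _ h1, hmem _ h2, hmem _ h3, h4⟩
    · have hinj : Function.Injective
          (fun p : (ι → ℤ) × (ι → ℤ) × (ι → ℤ) => (p.2.1, p.2.2, p.1)) := by
        rintro ⟨p1, p2, p3⟩ ⟨q1, q2, q3⟩ hpq
        simp only [Prod.mk.injEq] at hpq
        obtain ⟨h1, h2, h3⟩ := hpq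
        rw [h1, h2, h3]
      rw [← Finset.card_image_of_injective U hinj]
      refine case1 B (z₂ := z₃) (z₃ := z₁) h _ fun p hp => ?_
      obtain ⟨q, hq, rfl⟩ := Finset.mem_image.1 hp
      obtain ⟨h1, h2, h3, h4⟩ := hU q hq
      refine ⟨hmem _ h2, hmem _ h3, hmem _ h1, ?_⟩
      rw [rel3_cyc]
      exact h4
    · have hinj : Function.Injective
          (fun p : (ι → ℤ) × (ι → ℤ) × (ι → ℤ) => (p.2.2, p.1, p.2.1)) := by
        rintro ⟨p1, p2, p3⟩ ⟨q1, q2, q3⟩ hpq
        simp only [Prod.mk.injEq] at hpq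
        obtain ⟨h1, h2, h3⟩ := hpq
        rw [h1, h2, h3]
      rw [← Finset.card_image_of_injective U hinj]
      refine case1 B (z₂ := z₁) (z₃ := z₂) h _ fun p hp => ?_
      obtain ⟨q, hq, rfl⟩ := Finset.mem_image.1 hp
      obtain ⟨h1, h2, h3, h4⟩ := hU q hq
      refine ⟨hmem _ h3, hmem _ h1, hmem _ h2, ?_⟩
      rw [← rel3_cyc, ← rel3_cyc] at h4
      exact h4
  have hnat' : (U.card : ℝ) ≤ 2 * (B.card : ℝ) ^ (3 * Fintype.card ι - 1) := by exact_mod_cast hnat
  refine hnat'.trans (mul_le_mul_of_nonneg_left ?_ (by norm_num))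
  exact pow_le_pow_left₀ (Nat.cast_nonneg _) hBc _

end Pool.Agent.Y168.D
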