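import Pool.Agent.Y716.D.Defs

/-!
# Vectors orthogonal to independent vectors
-/

set_option autoImplicit false

namespace Pool.Agent.Y168.D

open Pool.Agent.Y716.Q Pool.Agent.Y716.C Pool.Agent.Y716.D

variable {ι : Type*}

/-- the inclusion of integral vectors -/
def cst (ι : Type*) : (ι → ℤ) →ₗ[ℤ] (ι → ℚ) where
  toFun v := fun i => (v i : ℚ)
  map_add' u v := by
    funext i
    simp
  map_smul' c v := by
    funext i
    simp

theorem cst_inj (ι : Type*) : Function.Injective (cst ι) := by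
  intro u v h
  funext i
  have h1 : ((u i : ℤ) : ℚ) = ((v i : ℤ) : ℚ) := congrFun h i
  exact_mod_cast h1

theorem li_cast {κ : Type*} {L : κ → ι → ℤ} (h : LinearIndependent ℤ L) :
    LinearIndependent ℚ (fun j => cst ι (L j)) := by
  have h1 : LinearIndependent ℤ (fun j => cst ι (L j)) :=
    h.map' (cst ι) (LinearMap.ker_eq_bot.2 (cst_inj ι))
  exact (LinearIndependent.iff_fractionRing ℤ ℚ).1 h1

theorem li_of_cast {κ : Type*} {L : κ → ι → ℤ} (h : LinearIndependent ℚ (fun j => cst ι (L j))) :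
    LinearIndependent ℤ L := by
  have h1 : LinearIndependent ℤ (fun j => cst ι (L j)) :=
    (LinearIndependent.iff_fractionRing ℤ ℚ).2 h
  exact LinearIndependent.of_comp (cst ι) h1

theorem ne_zero_of_mn {x y : ι → ℤ} (h : ∃ i j, mn x y i j ≠ 0) : (∃ i, x i ≠ 0) ∧ ∃ i, y i ≠ 0 := by
  obtain ⟨i, j, hij⟩ := h
  constructor
  · by_contra hx
    push Not at hx
    exact hij (by rw [mn, hx, hx]; ring)
  · by_contra hy
    push Not at hy
    exact hij (by rw [mn, hy, hy]; ring)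

theorem prim_ne [Fintype ι] {x : ι → ℤ} (h : Prim x) : ∃ i, x i ≠ 0 := by
  by_contra hx
  push Not at hx
  have h2 := h 2 (fun i => by rw [hx i]; exact dvd_zero _)
  rw [Int.isUnit_iff] at h2
  omega

/-- vectors orthogonal to `k - 1` independent vectors are proportional -/
theorem orth [Fintype ι] {L : Fin (Fintype.card ι - 1) → ι → ℤ} (hL : LinearIndependent ℤ L)
    {y : ι → ℤ} (hy : ∃ i, y i ≠ 0) (hLy : ∀ j, ∑ i, L j i * y i = 0) {w : ι → ℚ}
    (hw : ∀ j, ∑ i, (L j i : ℚ) * w i = 0) : ∃ c : ℚ, ∀ i, w i = c * y i := by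
  classical
  obtain ⟨i₀, hi₀⟩ := hy
  have hk : 0 < Fintype.card ι := Fintype.card_pos_iff.2 ⟨i₀⟩
  obtain ⟨A, hA⟩ : ∃ A : Matrix (Fin (Fintype.card ι - 1)) ι ℚ, A = Matrix.of fun j i => (L j i : ℚ) :=
    ⟨_, rfl⟩
  have hrow : LinearIndependent ℚ A.row := by
    have h1 := li_cast hL
    rw [hA]
    exact h1
  have hrank : A.rank = Fintype.card ι - 1 := by
    rw [hrow.rank_matrix, Fintype.card_fin]
  have hdim := A.mulVecLin.finrank_range_add_finrank_ker
  rw [Module.finrank_fintype_fun_eq_card] at hdim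
  have hker : Module.finrank ℚ (LinearMap.ker A.mulVecLin) = 1 := by
    rw [Matrix.rank] at hrank
    omega
  have hmem : ∀ v : ι → ℚ, (∀ j, ∑ i, (L j i : ℚ) * v i = 0) → v ∈ LinearMap.ker A.mulVecLin := by
    intro v hv
    rw [LinearMap.mem_ker]
    funext j
    rw [hA]
    exact hv j
  have hyv : ∀ j, ∑ i, (L j i : ℚ) * (y i : ℚ) = 0 := by
    intro j
    have := hLy j
    exact_mod_cast this
  have hne : (⟨fun i => (y i : ℚ), hmem _ hyv⟩ : LinearMap.ker A.mulVecLin) ≠ 0 := by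
    intro h
    have h1 : ((y i₀ : ℤ) : ℚ) = 0 := congrFun (congrArg Subtype.val h) i₀
    exact hi₀ (by exact_mod_cast h1)
  obtain ⟨c, hc⟩ := (finrank_eq_one_iff_of_nonzero' _ hne).1 hker ⟨w, hmem _ hw⟩
  refine ⟨c, fun i => ?_⟩
  have h1 := congrFun (congrArg Subtype.val hc) i
  exact h1.symm

end Pool.Agent.Y168.D
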